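import Pool.Agent.H45.CF.Targets

/-!
# MP_e37c09_lc, module PG: the pigeonhole principle for positive sets
-/

open Ordinal Cardinal Order Set
open scoped ZFSet

universe u

namespace Pool.Agent.H94.CF.PG

open _root_.HD

theorem pf_PG : HD.CF.T_PG.{u} := by
  intro μ ρ hρ C hC X g hX
  by_contra hcon
  push_neg at hcon
  obtain ⟨r, hr, htype⟩ := Cardinal.ord_eq C
  have h1 := All.va μ ρ hρ (#C).ord (by rw [Cardinal.card_ord]; exact hC)
    (fun i => {b | b ∈ X ∧ typein r (g b) = i}) (by
      intro i hi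
      rw [htype] at hi
      obtain ⟨c, rfl⟩ := typein_surj r hi
      intro hpos
      exact hcon c (hpos.mono fun b _ hb _ => ⟨hb.1, (typein_inj r).1 hb.2⟩))
  exact h1 (hX.mono fun b _ hb _ => ⟨typein r (g b), by rw [htype]; exact typein_lt_type r _,
    hb, rfl⟩)

end Pool.Agent.H94.CF.PG
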